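import Mathlib
import Pool.Agent.L0h79.FR.All2

set_option autoImplicit false

/-!
# Fields generated by numbers with words of finite rank
-/

namespace Pool.Agent.Results.MP_c9a594_an.FiniteRankFields

open Pool.Agent.L0h79.FR

/-- the number of different blocks of length `n` in the sequence `w` -/
noncomputable def complexity {α : Type} (w : ℕ → α) (n : ℕ) : ℕ :=
  (Set.range fun i => fun j : Fin n => w (i + j)).ncard

/-- the digit of index `n + 1` after the point in the base `b` expansion of `x` -/
noncomputable def digit (b : ℕ) (x : ℝ) (n : ℕ) : ℤ := ⌊x * (b : ℝ) ^ (n + 1)⌋ % (b : ℤ)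

/-- `w` has finite rank at all scales: for every scale `N` there are `k` words of length at most
`C N` such that for every `E` and all large `N` a prefix of `w` of length at least `E N` is a product
of at most `M = M(E)` of these words -/
def FiniteRank {α : Type} (w : ℕ → α) : Prop :=
  ∃ (k C : ℕ) (W : ℕ → Fin k → List α), (∀ N j, (W N j).length ≤ C * N) ∧
    ∀ E : ℕ, ∃ M N₀ : ℕ, ∀ N ≥ N₀, ∃ l : List (Fin k), l.length ≤ M ∧
      E * N ≤ (l.flatMap (W N)).length ∧
      ∀ i, ∀ hi : i < (l.flatMap (W N)).length, (l.flatMap (W N))[i] = w i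

/-- the numbers `∑ τ(w_n) / b^(n+1)`, where `τ` has rational values and `w` is a word of finite rank
over a finite alphabet, and the numbers with `O(n)` different blocks of `n` digits in base `b`, `n ∈ S` -/
def Mixed (S : Set ℕ) (b : ℕ) : Set ℝ :=
  {x | (∃ (α : Type) (_ : Finite α) (τ : α → ℚ) (w : ℕ → α),
      HasSum (fun n : ℕ => (τ (w n) : ℝ) / (b : ℝ) ^ (n + 1)) x ∧ FiniteRank w) ∨
    ∃ C : ℝ, ∀ n ∈ S, (complexity (digit b x) n : ℝ) ≤ C * n}

/-- the height of an integer polynomial: the largest absolute value of a coefficient -/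
def height (P : Polynomial ℤ) : ℕ := P.support.sup fun i => (P.coeff i).natAbs

/-- Mahler's U-numbers: for some degree `d` and every exponent `w` there are infinitely many
`P ∈ ℤ[X]` of degree at most `d` with `0 < |P(x)| ≤ (height P) ^ (-w)` -/
def UNumber (x : ℝ) : Prop :=
  ∃ d : ℕ, ∀ w : ℕ, {P : Polynomial ℤ | P.natDegree ≤ d ∧ 0 < |Polynomial.aeval x P| ∧
    |Polynomial.aeval x P| * (height P : ℝ) ^ w ≤ 1}.Infinite

/-- multiplicatively independent integers -/
def Indep (a b : ℕ) : Prop := ∀ k l : ℕ, a ^ k = b ^ l → k = 0 ∧ l = 0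

theorem mixed_sub (S : Set ℕ) (b : ℕ) : Mixed S b ⊆ MixCls S b := by
  rintro x (⟨α, hα, τ, w, h, k, C, hw⟩ | h)
  · exact Or.inl ⟨α, hα, τ, w, k, C, h, hw⟩
  · exact Or.inr h

/-- a number with digits of finite rank is in the field generated by `MixCls S b` -/
theorem digits_mix {b : ℕ} (hb : 2 ≤ b) (S : Set ℕ) {x : ℝ} (h : FiniteRank (digit b x)) :
    x ∈ Subfield.closure (MixCls S b) := by
  have : NeZero b := ⟨by omega⟩
  have e : (fun n => ((digit b x n : ℤ) : ZMod b)) = Pool.Agent.TH796.AL.Final.dz b x := by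
    funext n
    have := Pool.Agent.TH796.AL.Final.digit_eq hb x n
    change ((Pool.Agent.TH796.AL.Final.digit b x n : ℤ) : ZMod b) = _
    rw [this]
    simp
  obtain ⟨k, C, h⟩ := h
  have h1 : x - ⌊x⌋ ∈ Subfield.closure (MixCls S b) := by
    refine Subfield.subset_closure (Or.inl ⟨ZMod b, inferInstance, fun a => (a.val : ℚ),
      Pool.Agent.TH796.AL.Final.dz b x, k, C, hasSum_dz hb x, ?_⟩)
    rw [← e]
    exact finrank_comp (fun z : ℤ => (z : ZMod b)) h
  have h2 : ((⌊x⌋ : ℤ) : ℝ) ∈ Subfield.closure (MixCls S b) := intCast_mem _ _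
  have h3 := (Subfield.closure (MixCls S b)).add_mem h1 h2
  rwa [sub_add_cancel] at h3

/-- (1) Let `b_1, …, b_r ≥ 2` be multiplicatively independent integers, `S` an infinite set of integers
and let `x_i` be an irrational number in the field generated by `Mixed S b_i`, or a transcendental
number which is algebraic over this field. Then `x_1, …, x_r` are algebraically independent over `ℚ`,
or one of them is a U-number.

(2) Let `a, b ≥ 2` be multiplicatively independent. If the digits of the irrational number `x` in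
base `a` have finite rank and `x` is not a Liouville number then for every `C` and all large `n` the
number `x` has more than `C n` different blocks of `n` digits in base `b`.

(3) Let `a, b` be as in (2) and `S` infinite. An irrational number which is in the fields generated by
`Mixed S a` and by `Mixed S b` is a Liouville number. -/
theorem result :
    (∀ (r : ℕ) (b : Fin r → ℕ), (∀ i, 2 ≤ b i) →
      (∀ k : Fin r → ℤ, ∏ i, (b i : ℚ) ^ k i = 1 → k = 0) → ∀ S : Set ℕ, S.Infinite →
      ∀ x : Fin r → ℝ, (∀ i, Transcendental ℚ (x i) ∧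
          IsAlgebraic (Subfield.closure (Mixed S (b i))) (x i) ∨
        Irrational (x i) ∧ x i ∈ Subfield.closure (Mixed S (b i))) →
      AlgebraicIndependent ℚ x ∨ ∃ i, UNumber (x i)) ∧
    (∀ a b : ℕ, 2 ≤ a → 2 ≤ b → Indep a b → ∀ x : ℝ, Irrational x →
      (FiniteRank (digit a x) → ¬ Liouville x →
        ∀ C : ℝ, ∃ n₀ : ℕ, ∀ n ≥ n₀, C * n < complexity (digit b x) n) ∧
      ∀ S : Set ℕ, S.Infinite → x ∈ Subfield.closure (Mixed S a) →
        x ∈ Subfield.closure (Mixed S b) → Liouville x) := by
  have hmono : ∀ (S : Set ℕ) (b : ℕ), Subfield.closure (Mixed S b) ≤ Subfield.closure (MixCls S b) :=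
    fun S b => Subfield.closure_mono (mixed_sub S b)
  refine ⟨fun r b hb h S hS x hx => ?_, fun a b ha hb hab x hx => ⟨fun hf hl C => ?_,
      fun S hS h1 h2 => ?_⟩⟩
  · refine mix_ai rv_thm hb h hS x fun i => ?_
    rcases hx i with h1 | h1
    · exact Or.inl ⟨h1.1, Pool.Agent.TH796.AL.Alg.alg_mono (hmono S (b i)) h1.2⟩
    · exact Or.inr ⟨h1.1, hmono S (b i) h1.2⟩
  · by_contra hcon
    push Not at hcon
    set S : Set ℕ := {n | (complexity (digit b x) n : ℝ) ≤ C * n} with hS
    have hinf : S.Infinite := by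
      rw [Set.infinite_iff_exists_gt]
      intro n₀
      obtain ⟨n, h1, h2⟩ := hcon (n₀ + 1)
      exact ⟨n, h2, by omega⟩
    exact hl (mix_two rv_thm ha hb hab hinf (digits_mix ha S hf)
      (Subfield.subset_closure (Or.inr ⟨C, fun n hn => hn⟩)) hx)
  · exact mix_two rv_thm ha hb hab hS (hmono S a h1) (hmono S b h2) hx

end Pool.Agent.Results.MP_c9a594_an.FiniteRankFields
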