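import Mathlib
import Pool.Agent.L0h79.FR.All2
import Pool.Agent.H326R2.Pi.Top

set_option autoImplicit false

/-!
# Lempel-Ziv complexities of a number in multiplicatively independent bases
-/

namespace Pool.Agent.Results.MP_c9a594_an.LempelZiv

open Pool.Agent.L0h79.FR

/-- the number of different blocks of length `n` in the sequence `w` -/
noncomputable def complexity {α : Type} (w : ℕ → α) (n : ℕ) : ℕ :=
  (Set.range fun i => fun j : Fin n => w (i + j)).ncard

/-- the digit of index `n + 1` after the point in the base `b` expansion of `x` -/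
noncomputable def digit (b : ℕ) (x : ℝ) (n : ℕ) : ℤ := ⌊x * (b : ℝ) ^ (n + 1)⌋ % (b : ℤ)

/-- `[s, t)` is a phrase of `w`: it has at most one letter, or it is a copy of an earlier block, which
starts `δ` letters before `s` (and may overlap `[s, t)`) -/
def Phrase {α : Type} (w : ℕ → α) (s t : ℕ) : Prop :=
  s ≤ t ∧ (t ≤ s + 1 ∨ ∃ δ, 1 ≤ δ ∧ δ ≤ s ∧ ∀ j, s ≤ j → j < t → w j = w (j - δ))

/-- the first `N` letters of `w` are covered by `r` consecutive phrases -/
def Parse {α : Type} (w : ℕ → α) (N r : ℕ) : Prop :=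
  ∃ t : ℕ → ℕ, t 0 = 0 ∧ N ≤ t r ∧ ∀ i < r, Phrase w (t i) (t (i + 1))

/-- the Lempel-Ziv complexity of the first `N` letters: the smallest number of phrases -/
noncomputable def LZ {α : Type} (w : ℕ → α) (N : ℕ) : ℕ := sInf {r | Parse w N r}

/-- `w` has finite rank at all scales: for every scale `N` there are `k` words of length at most
`C N` such that for every `E` and all large `N` a prefix of `w` of length at least `E N` is a product
of at most `M = M(E)` of these words -/
def FiniteRank {α : Type} (w : ℕ → α) : Prop :=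
  ∃ (k C : ℕ) (W : ℕ → Fin k → List α), (∀ N j, (W N j).length ≤ C * N) ∧
    ∀ E : ℕ, ∃ M N₀ : ℕ, ∀ N ≥ N₀, ∃ l : List (Fin k), l.length ≤ M ∧
      E * N ≤ (l.flatMap (W N)).length ∧
      ∀ i, ∀ hi : i < (l.flatMap (W N)).length, (l.flatMap (W N))[i] = w i

/-- the numbers `∑ τ(w_n) / b^(n+1)`, where `τ` has rational values and `w` is a word over a finite
alphabet which has finite rank or satisfies `LZ w N = O(1 + log N)` for `N ∈ S`, and the numbers whose
digits in base `b` have at most linear block complexity -/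
def Gen (S : Set ℕ) (b : ℕ) : Set ℝ :=
  {x | (∃ (α : Type) (_ : Finite α) (τ : α → ℚ) (w : ℕ → α),
      HasSum (fun n : ℕ => (τ (w n) : ℝ) / (b : ℝ) ^ (n + 1)) x ∧
      (FiniteRank w ∨ ∃ K : ℝ, ∀ N ∈ S, (LZ w N : ℝ) ≤ K * (1 + Real.log N))) ∨
    ∃ C : ℝ, ∀ n : ℕ, 1 ≤ n → (complexity (digit b x) n : ℝ) ≤ C * n}

/-- multiplicatively independent integers -/
def Indep (a b : ℕ) : Prop := ∀ k l : ℕ, a ^ k = b ^ l → k = 0 ∧ l = 0

theorem pi_not_liouville : ¬ Liouville Real.pi := by
  intro hl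
  obtain ⟨q0, hq0⟩ := Pool.Agent.H326R2.Pi.main
  obtain ⟨b, ⟨a, _, h1⟩, h2⟩ := ((hl.frequently_exists_num 7).and_eventually
    (Filter.eventually_ge_atTop (max q0 1))).exists
  have hb1 : 1 ≤ b := (le_max_right _ _).trans h2
  have h3 := hq0 b ((le_max_left _ _).trans h2) a
  have hb : (1 : ℝ) ≤ b := by exact_mod_cast hb1
  have h4 : (1 : ℝ) / (b : ℝ) ^ 7 ≤ (b : ℝ) ^ (-(6.05 : ℝ)) := by
    rw [one_div, ← Real.rpow_natCast, ← Real.rpow_neg (by positivity)]
    exact Real.rpow_le_rpow_of_exponent_le hb (by norm_num)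
  linarith

theorem gen_sub {S : Set ℕ} {b : ℕ} (hb : 2 ≤ b) : Gen S b ⊆ {x | LZNum S b x ∨ UL b x} := by
  rintro x (⟨α, hα, τ, w, h, hw | ⟨K, hw⟩⟩ | h)
  · exact Or.inr (cls_ul frd_thm lu_thm hb (Or.inl ⟨α, hα, τ, w, h, Or.inl hw⟩))
  · exact Or.inl ⟨α, hα, τ, w, K, h, hw⟩
  · exact Or.inr (cls_ul frd_thm lu_thm hb (Or.inr h))

/-- Let `a, b ≥ 2` be multiplicatively independent integers and let `x` be an irrational number which
is not a Liouville number, for instance `π`.

(1) The quotient of the sum of the Lempel-Ziv complexities of the first `N` digits of `x` in base `a`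
and in base `b` by `log N` tends to infinity.

(2) If the digits of `x` in base `a` have finite rank or at most linear block complexity then the
quotient of the Lempel-Ziv complexity of the first `N` digits of `x` in base `b` by `log N` tends to
infinity.

(3) Let `b_1, …, b_k ≥ 2` be pairwise multiplicatively independent, `S` an infinite set of integers, let
`y_i` be in the `ℚ`-algebra generated by `Gen S b_i` and let `∑ α_i y_i` be algebraic, where the `α_i`
are nonzero real algebraic numbers. Then each `y_i` is rational or a Liouville number. -/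
theorem result :
    (∀ a b : ℕ, 2 ≤ a → 2 ≤ b → Indep a b → ∀ x : ℝ, x = Real.pi ∨ Irrational x ∧ ¬ Liouville x →
      (∀ K : ℝ, ∃ N₀ : ℕ, ∀ N ≥ N₀,
        K * Real.log N < (LZ (digit a x) N : ℝ) + LZ (digit b x) N) ∧
      ((FiniteRank (digit a x) ∨ ∃ C : ℝ, ∀ n : ℕ, 1 ≤ n → (complexity (digit a x) n : ℝ) ≤ C * n) →
        ∀ K : ℝ, ∃ N₀ : ℕ, ∀ N ≥ N₀, K * Real.log N < (LZ (digit b x) N : ℝ))) ∧
    (∀ (k : ℕ) (b : Fin k → ℕ), (∀ i, 2 ≤ b i) → (∀ i j, i ≠ j → Indep (b i) (b j)) →
      ∀ S : Set ℕ, S.Infinite → ∀ y α : Fin k → ℝ,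
      (∀ i, y i ∈ Algebra.adjoin ℚ (Gen S (b i))) →
      (∀ i, IsAlgebraic ℚ (α i) ∧ α i ≠ 0) → IsAlgebraic ℚ (∑ i, α i * y i) →
      ∀ i, (∃ q : ℚ, y i = q) ∨ Liouville (y i)) := by
  refine ⟨fun a b ha hb hab x hx => ?_, fun k b hb hind S hS y α hy hα hsum i => ?_⟩
  · have hx' : Irrational x ∧ ¬ Liouville x := by
      rcases hx with rfl | hx
      · exact ⟨irrational_pi, pi_not_liouville⟩
      · exact hx
    refine ⟨fun K => lz_main lm_thm ha hb hab hx'.1 hx'.2 K, fun h K => ?_⟩
    refine lz_one frd_thm lu_thm lm_thm ha hb hab hx'.1 hx'.2 ?_ K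
    rcases h with h | h
    · exact cls_digits ha (Or.inl h)
    · exact Algebra.subset_adjoin (Or.inr h)
  · exact lm_alg lm_thm S hS k b hb hind y α
      (fun i => Algebra.adjoin_mono (gen_sub (hb i)) (hy i)) hα hsum i

end Pool.Agent.Results.MP_c9a594_an.LempelZiv
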