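import Mathlib
import Pool.Agent.L0h79.FR.All2

set_option autoImplicit false

/-!
# Numbers with words of finite rank in multiplicatively independent bases
-/

namespace Pool.Agent.Results.MP_c9a594_an.MorphicNumbers

open Pool.Agent.L0h79.FR

/-- the number of different blocks of length `n` in the sequence `w` -/
noncomputable def complexity {α : Type} (w : ℕ → α) (n : ℕ) : ℕ :=
  (Set.range fun i => fun j : Fin n => w (i + j)).ncard

/-- the digit of index `n + 1` after the point in the base `b` expansion of `x` -/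
noncomputable def digit (b : ℕ) (x : ℝ) (n : ℕ) : ℤ := ⌊x * (b : ℝ) ^ (n + 1)⌋ % (b : ℤ)

/-- the word `σ^n(u)` for a substitution `σ` -/
def iter {α : Type} (σ : α → List α) : ℕ → List α → List α
  | 0, u => u
  | n + 1, u => iter σ n (u.flatMap σ)

/-- `u` is a morphic sequence of non-polynomial growth: the image under a coding `f` of the limit `v`
of the words `σ^n(a)`, whose lengths are not bounded by a polynomial in `n` -/
def ExpMorphic {β : Type} (u : ℕ → β) : Prop :=
  ∃ (α : Type) (_ : Finite α) (σ : α → List α) (a : α) (v : ℕ → α) (f : α → β),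
    (∀ K : ℕ, ∃ n : ℕ, K * (n + 1) ^ K < (iter σ n [a]).length) ∧
    (∀ n i, ∀ hi : i < (iter σ n [a]).length, (iter σ n [a])[i] = v i) ∧
    ∀ n, u n = f (v n)

/-- `w` has finite rank at all scales: for every scale `N` there are `k` words of length at most
`C N` such that for every `E` and all large `N` a prefix of `w` of length at least `E N` is a product
of at most `M = M(E)` of these words -/
def FiniteRank {α : Type} (w : ℕ → α) : Prop :=
  ∃ (k C : ℕ) (W : ℕ → Fin k → List α), (∀ N j, (W N j).length ≤ C * N) ∧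
    ∀ E : ℕ, ∃ M N₀ : ℕ, ∀ N ≥ N₀, ∃ l : List (Fin k), l.length ≤ M ∧
      E * N ≤ (l.flatMap (W N)).length ∧
      ∀ i, ∀ hi : i < (l.flatMap (W N)).length, (l.flatMap (W N))[i] = w i

/-- `[s, t)` is a Lempel-Ziv phrase of `w`: it has at most one letter, or it is a copy of an earlier
block, which starts `δ` letters before `s` (and may overlap `[s, t)`) -/
def Phrase {α : Type} (w : ℕ → α) (s t : ℕ) : Prop :=
  s ≤ t ∧ (t ≤ s + 1 ∨ ∃ δ, 1 ≤ δ ∧ δ ≤ s ∧ ∀ j, s ≤ j → j < t → w j = w (j - δ))

/-- `w` has a parsing into phrases whose end points `t i` grow exponentially -/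
def ExpParsing {α : Type} (w : ℕ → α) : Prop :=
  ∃ (p : ℕ) (t : ℕ → ℕ), t 0 = 0 ∧ t 1 = 1 ∧ (∀ i, 2 * t i ≤ t (i + p)) ∧
    ∀ i, Phrase w (t i) (t (i + 1))

/-- the sequence of the digits of `x` in base `b` is morphic of non-polynomial growth, or has finite
rank, or has an exponential parsing, or has at most linear block complexity -/
def Simple (b : ℕ) (x : ℝ) : Prop :=
  ExpMorphic (digit b x) ∨ FiniteRank (digit b x) ∨ ExpParsing (digit b x) ∨
    ∃ C : ℝ, ∀ n : ℕ, 1 ≤ n → (complexity (digit b x) n : ℝ) ≤ C * n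

/-- the numbers `∑ τ(w_n) / b^(n+1)`, where `τ` has rational values and `w` is a word over a finite
alphabet which has finite rank or an exponential parsing, and the numbers whose digits in base `b` have
at most linear block complexity -/
def Series (b : ℕ) : Set ℝ :=
  {x | (∃ (α : Type) (_ : Finite α) (τ : α → ℚ) (w : ℕ → α),
      HasSum (fun n : ℕ => (τ (w n) : ℝ) / (b : ℝ) ^ (n + 1)) x ∧
      (FiniteRank w ∨ ExpParsing w)) ∨
    ∃ C : ℝ, ∀ n : ℕ, 1 ≤ n → (complexity (digit b x) n : ℝ) ≤ C * n}

/-- multiplicatively independent integers -/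
def Indep (a b : ℕ) : Prop := ∀ k l : ℕ, a ^ k = b ^ l → k = 0 ∧ l = 0

theorem iter_eq {α : Type} (σ : α → List α) (n : ℕ) : ∀ u : List α, iter σ n u = sub σ n u := by
  induction n with
  | zero => intro u; rfl
  | succ n ih => intro u; exact ih _

theorem exp_eq {β : Type} {u : ℕ → β} (h : ExpMorphic u) : Pool.Agent.L0h79.FR.ExpMorphic u := by
  obtain ⟨α, hα, σ, a, v, f, h1, h2, h3⟩ := h
  refine ⟨α, hα, σ, a, v, f, fun K => ?_, fun n i hi => ?_, h3⟩
  · obtain ⟨n, hn⟩ := h1 K
    rw [iter_eq] at hn
    exact ⟨n, hn⟩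
  · have e := iter_eq σ n [a]
    have hi' : i < (iter σ n [a]).length := by rw [e]; exact hi
    have h4 := h2 n i hi'
    rw [← h4]
    congr 1
    exact e.symm

theorem fr_iff {α : Type} {w : ℕ → α} : FiniteRank w ↔ ∃ k C : ℕ, FinRank w k C := Iff.rfl

theorem ep_iff {α : Type} {w : ℕ → α} : ExpParsing w ↔ ∃ p : ℕ, ExpParse w p := Iff.rfl

theorem series_sub (b : ℕ) : Series b ⊆ Cls b := fun _ h => h

theorem exp_rank {β : Type} {u : ℕ → β} (h : ExpMorphic u) : FiniteRank u :=
  exp_finrank grow_thm morph_thm (exp_eq h)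

theorem simple_mem {b : ℕ} (hb : 2 ≤ b) {x : ℝ} (h : Simple b x) :
    x ∈ Algebra.adjoin ℚ (Cls b) := by
  rcases h with h | h | h | h
  · exact cls_digits hb (Or.inl (exp_rank h))
  · exact cls_digits hb (Or.inl h)
  · exact cls_digits hb (Or.inr h)
  · exact Algebra.subset_adjoin (Or.inr h)

/-- (1) A morphic sequence of non-polynomial growth has finite rank.

(2) Let `a, b ≥ 2` be multiplicatively independent integers. There is no irrational number `x`,
Liouville numbers included, which is `Simple` in base `a` and in base `b`. In particular the digits of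
an irrational number cannot be generated by morphisms of non-polynomial growth in both bases.

(3) Let `b_1, …, b_k ≥ 2` be pairwise multiplicatively independent, let `y_i` be in the `ℚ`-algebra
generated by `Series b_i` and let `∑ α_i y_i` be algebraic, where the `α_i` are nonzero real algebraic
numbers. Then all `y_i` are rational. -/
theorem result :
    (∀ (β : Type) (u : ℕ → β), ExpMorphic u → FiniteRank u) ∧
    (∀ a b : ℕ, 2 ≤ a → 2 ≤ b → Indep a b → ∀ x : ℝ, Irrational x →
      ¬ (Simple a x ∧ Simple b x)) ∧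
    (∀ (k : ℕ) (b : Fin k → ℕ), (∀ i, 2 ≤ b i) → (∀ i j, i ≠ j → Indep (b i) (b j)) →
      ∀ y α : Fin k → ℝ, (∀ i, y i ∈ Algebra.adjoin ℚ (Series (b i))) →
      (∀ i, IsAlgebraic ℚ (α i) ∧ α i ≠ 0) → IsAlgebraic ℚ (∑ i, α i * y i) →
      ∀ i, ∃ q : ℚ, y i = q) := by
  refine ⟨fun β u h => exp_rank h, fun a b ha hb hab x hx h => ?_,
    fun k b hb hind y α hy hα hsum i => ?_⟩
  · obtain ⟨q, hq⟩ := two_bases frd_thm lu_thm mainl_thm ha hb hab (simple_mem ha h.1)
      (simple_mem hb h.2)
    exact hx ⟨q, hq.symm⟩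
  · exact part2 frd_thm lu_thm mainl_thm k b hb hind y α
      (fun i => Algebra.adjoin_mono (series_sub (b i)) (hy i)) hα hsum i

end Pool.Agent.Results.MP_c9a594_an.MorphicNumbers
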