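import Mathlib
import Pool.Agent.L0h79.AJ.All

set_option autoImplicit false

/-!
# Algebraic independence of numbers which are simple in multiplicatively independent bases
-/

namespace Pool.Agent.Results.MP_c9a594_an.SimpleNumbersIndependent

open Pool.Agent.L0h79.FR Pool.Agent.L0h79.AJ

/-- the number of different blocks of length `n` in the sequence `w` -/
noncomputable def complexity {α : Type} (w : ℕ → α) (n : ℕ) : ℕ :=
  (Set.range fun i => fun j : Fin n => w (i + j)).ncard

/-- the digit of index `n + 1` after the point in the base `b` expansion of `x` -/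
noncomputable def digit (b : ℕ) (x : ℝ) (n : ℕ) : ℤ := ⌊x * (b : ℝ) ^ (n + 1)⌋ % (b : ℤ)

/-- the word `σ^n(u)` for a substitution `σ` -/
def iter {α : Type} (σ : α → List α) : ℕ → List α → List α
  | 0, u => u
  | n + 1, u => iter σ n (u.flatMap σ)

/-- `u` is a morphic sequence of non-polynomial growth: the image under a coding `f` of the limit `v`
of the words `σ^n(a)`, whose lengths are not bounded by a polynomial in `n` -/
def ExpMorphic {β : Type} (u : ℕ → β) : Prop :=
  ∃ (α : Type) (_ : Finite α) (σ : α → List α) (a : α) (v : ℕ → α) (f : α → β),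
    (∀ K : ℕ, ∃ n : ℕ, K * (n + 1) ^ K < (iter σ n [a]).length) ∧
    (∀ n i, ∀ hi : i < (iter σ n [a]).length, (iter σ n [a])[i] = v i) ∧
    ∀ n, u n = f (v n)

/-- `w` has finite rank at all scales: for every scale `N` there are `k` words of length at most
`C N` such that for every `E` and all large `N` a prefix of `w` of length at least `E N` is a product
of at most `M = M(E)` of these words -/
def FiniteRank {α : Type} (w : ℕ → α) : Prop :=
  ∃ (k C : ℕ) (W : ℕ → Fin k → List α), (∀ N j, (W N j).length ≤ C * N) ∧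
    ∀ E : ℕ, ∃ M N₀ : ℕ, ∀ N ≥ N₀, ∃ l : List (Fin k), l.length ≤ M ∧
      E * N ≤ (l.flatMap (W N)).length ∧
      ∀ i, ∀ hi : i < (l.flatMap (W N)).length, (l.flatMap (W N))[i] = w i

/-- `[s, t)` is a Lempel-Ziv phrase of `w`: it has at most one letter, or it is a copy of an earlier
block, which starts `δ` letters before `s` (and may overlap `[s, t)`) -/
def Phrase {α : Type} (w : ℕ → α) (s t : ℕ) : Prop :=
  s ≤ t ∧ (t ≤ s + 1 ∨ ∃ δ, 1 ≤ δ ∧ δ ≤ s ∧ ∀ j, s ≤ j → j < t → w j = w (j - δ))

/-- `w` has a parsing into phrases whose end points `t i` grow exponentially -/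
def ExpParsing {α : Type} (w : ℕ → α) : Prop :=
  ∃ (p : ℕ) (t : ℕ → ℕ), t 0 = 0 ∧ t 1 = 1 ∧ (∀ i, 2 * t i ≤ t (i + p)) ∧
    ∀ i, Phrase w (t i) (t (i + 1))

/-- the sequence of the digits of `x` in base `b` is morphic of non-polynomial growth, or has finite
rank, or has an exponential parsing, or has at most linear block complexity -/
def Simple (b : ℕ) (x : ℝ) : Prop :=
  ExpMorphic (digit b x) ∨ FiniteRank (digit b x) ∨ ExpParsing (digit b x) ∨
    ∃ C : ℝ, ∀ n : ℕ, 1 ≤ n → (complexity (digit b x) n : ℝ) ≤ C * n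

/-- the numbers `∑ τ(w_n) / b^(n+1)`, where `τ` has rational values and `w` is a word over a finite
alphabet which has finite rank or an exponential parsing, and the numbers whose digits in base `b` have
at most linear block complexity -/
def Series (b : ℕ) : Set ℝ :=
  {x | (∃ (α : Type) (_ : Finite α) (τ : α → ℚ) (w : ℕ → α),
      HasSum (fun n : ℕ => (τ (w n) : ℝ) / (b : ℝ) ^ (n + 1)) x ∧
      (FiniteRank w ∨ ExpParsing w)) ∨
    ∃ C : ℝ, ∀ n : ℕ, 1 ≤ n → (complexity (digit b x) n : ℝ) ≤ C * n}

/-- multiplicatively independent integers -/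
def Indep (a b : ℕ) : Prop := ∀ k l : ℕ, a ^ k = b ^ l → k = 0 ∧ l = 0

theorem iter_eq {α : Type} (σ : α → List α) (n : ℕ) : ∀ u : List α, iter σ n u = sub σ n u := by
  induction n with
  | zero => intro u; rfl
  | succ n ih => intro u; exact ih _

theorem exp_eq {β : Type} {u : ℕ → β} (h : ExpMorphic u) : Pool.Agent.L0h79.FR.ExpMorphic u := by
  obtain ⟨α, hα, σ, a, v, f, h1, h2, h3⟩ := h
  refine ⟨α, hα, σ, a, v, f, fun K => ?_, fun n i hi => ?_, h3⟩
  · obtain ⟨n, hn⟩ := h1 K
    rw [iter_eq] at hn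
    exact ⟨n, hn⟩
  · have e := iter_eq σ n [a]
    have hi' : i < (iter σ n [a]).length := by rw [e]; exact hi
    have h4 := h2 n i hi'
    rw [← h4]
    congr 1
    exact e.symm

theorem series_sub (b : ℕ) : Series b ⊆ Cls b := fun _ h => h

theorem exp_rank {β : Type} {u : ℕ → β} (h : ExpMorphic u) : FiniteRank u :=
  exp_finrank grow_thm morph_thm (exp_eq h)

theorem simple_mem {b : ℕ} (hb : 2 ≤ b) {x : ℝ} (h : Simple b x) :
    x ∈ Algebra.adjoin ℚ (Cls b) := by
  rcases h with h | h | h | h
  · exact cls_digits hb (Or.inl (exp_rank h))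
  · exact cls_digits hb (Or.inl h)
  · exact cls_digits hb (Or.inr h)
  · exact Algebra.subset_adjoin (Or.inr h)

theorem series_frac {b : ℕ} (hb : 2 ≤ b) {x : ℝ} (hx : x ∈ Subfield.closure (Series b)) :
    ∃ p q : ℝ, UL b p ∧ UL b q ∧ q ≠ 0 ∧ x = p / q :=
  closure_frac (fun y hy => cls_ul frd_thm lu_thm hb hy) (Subfield.closure_mono (series_sub b) hx)

theorem alg_frac {b : ℕ} (hb : 2 ≤ b) {x : ℝ} (hx : x ∈ Algebra.adjoin ℚ (Cls b)) :
    ∃ p q : ℝ, UL b p ∧ UL b q ∧ q ≠ 0 ∧ x = p / q :=
  closure_frac (fun y hy => cls_ul frd_thm lu_thm hb hy) (adj_field hx)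

/-- (1) Let `b_1, …, b_r ≥ 2` be multiplicatively independent integers and let `x_i` be an irrational
number which is `Simple` in base `b_i`, or an irrational number in the `ℚ`-algebra generated by
`Series b_i`, or a transcendental number in the field generated by `Series b_i`. Then `x_1, …, x_r` are
algebraically independent over `ℚ`.

(2) Let no power of `a` (except `1`) be a product of powers of `b_1, …, b_k`. An element of the field
generated by `Series a` which is algebraic over the field generated by the union of the `Series b_l` is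
algebraic over `ℚ`.

(3) Let `a, b ≥ 2` be multiplicatively independent. The intersection of the fields generated by
`Series a` and by `Series b` is `ℚ`. -/
theorem result :
    (∀ (r : ℕ) (b : Fin r → ℕ), (∀ i, 2 ≤ b i) →
      (∀ k : Fin r → ℤ, ∏ i, (b i : ℚ) ^ k i = 1 → k = 0) → ∀ x : Fin r → ℝ,
      (∀ i, Irrational (x i) ∧ (Simple (b i) (x i) ∨ x i ∈ Algebra.adjoin ℚ (Series (b i))) ∨
        Transcendental ℚ (x i) ∧ x i ∈ Subfield.closure (Series (b i))) →
      AlgebraicIndependent ℚ x) ∧
    (∀ (k a : ℕ) (b : Fin k → ℕ), 2 ≤ a → (∀ l, 2 ≤ b l) →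
      (∀ (s : ℤ) (t : Fin k → ℤ), (a : ℚ) ^ s * ∏ l, (b l : ℚ) ^ t l = 1 → s = 0) →
      ∀ x ∈ Subfield.closure (Series a), IsAlgebraic (Subfield.closure (⋃ l, Series (b l))) x →
        IsAlgebraic ℚ x) ∧
    (∀ a b : ℕ, 2 ≤ a → 2 ≤ b → Indep a b → ∀ x : ℝ, x ∈ Subfield.closure (Series a) →
      x ∈ Subfield.closure (Series b) → ∃ q : ℚ, x = q) := by
  refine ⟨fun r b hb h x hx => ?_, fun k a b ha hb h x hx hal => ?_,
    fun a b ha hb hab x h1 h2 => fields step_thm ha hb hab (series_frac ha h1) (series_frac hb h2)⟩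
  · refine ai_main step_thm r b hb h x (fun i => ?_) fun i => ?_
    · rcases hx i with ⟨h1, h2⟩ | ⟨h1, -⟩
      · refine irr_trans frd_thm lu_thm mainl_thm (hb i) ?_ h1
        rcases h2 with h2 | h2
        · exact simple_mem (hb i) h2
        · exact Algebra.adjoin_mono (series_sub (b i)) h2
      · exact h1
    · rcases hx i with ⟨-, h2⟩ | ⟨-, h2⟩
      · refine alg_frac (hb i) ?_
        rcases h2 with h2 | h2
        · exact simple_mem (hb i) h2
        · exact Algebra.adjoin_mono (series_sub (b i)) h2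
      · exact series_frac (hb i) h2
  · refine field_alg step_thm ha hb h (series_frac ha hx) (S := ⋃ l, Series (b l)) ?_ hal
    intro y hy
    obtain ⟨l, hl⟩ := Set.mem_iUnion.1 hy
    exact ulm_of_ul (cls_ul frd_thm lu_thm (hb l) (series_sub (b l) hl))

end Pool.Agent.Results.MP_c9a594_an.SimpleNumbersIndependent
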